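import Mathlib
import Pool.Agent.H15.Qt1

set_option autoImplicit false

namespace Pool.Agent.Results.MP_0995d8_gt.NotImage
open Topology Pointwise

universe u

/-- Finitely many translates of any neighbourhood of the identity cover the group. -/
def IsPrecompact (G : Type u) [CommGroup G] [TopologicalSpace G] : Prop :=
  ∀ U ∈ 𝓝 (1 : G), ∃ F : Set G, F.Finite ∧ F * U = Set.univ

/-- The evaluation map to the second Pontryagin dual is a topological isomorphism. -/
def IsReflexive (G : Type u) [CommGroup G] [TopologicalSpace G] : Prop :=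
  ∃ e : G ≃ₜ* PontryaginDual (PontryaginDual G), ∀ (x : G) (χ : PontryaginDual G), e x χ = χ x

theorem result : ∃ (H : Type) (_ : CommGroup H) (_ : TopologicalSpace H),
    IsTopologicalGroup H ∧ T2Space H ∧ IsPrecompact H ∧
      ∀ (G : Type u) [CommGroup G] [TopologicalSpace G] [IsTopologicalGroup G] [T2Space G],
        IsPrecompact G → IsReflexive G →
          ∀ f : G →* H, Continuous f → ¬ Function.Surjective f :=
  ⟨Pool.Agent.H15.Psc.ZB, inferInstance, inferInstance, inferInstance, inferInstance,
    Pool.Agent.H15.Psc.precomp Pool.Agent.H15.Psc.zind,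
    fun G _ _ _ _ h1 h2 => Pool.Agent.H15.Psc.no_img G h1 h2⟩

end Pool.Agent.Results.MP_0995d8_gt.NotImage
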